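import Pool.Agent.Helper54.SRD.Basic

/-!
# GEO: a time minimising curve is a `C^2` geodesic
-/

open Set Filter MeasureTheory
open scoped Manifold ContDiff Topology

noncomputable section

set_option maxSynthPendingDepth 3
set_option linter.unusedSectionVars false

namespace Pool.Agent.Helper10.SRD

open Pool.Agent.Helper54.SRD

section Vec

variable {E : Type*} [NormedAddCommGroup E] [NormedSpace ℝ E] [FiniteDimensional ℝ E]

/-- On positive definite forms the form is the square of `nm`. -/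
theorem sq_nm {B : Bil E} (hB : IsPD B) (u : E) : nm B u ^ 2 = B u u := by
  unfold nm
  apply Real.sq_sqrt
  by_cases hu : u = 0
  · rw [hu]; simp
  · exact (hB.2 u hu).le

theorem nm_nonneg (B : Bil E) (u : E) : 0 ≤ nm B u := Real.sqrt_nonneg _

/-- Integrability of the energy density. -/
theorem intq {U : Set E} {G : E → Bil E} (hG : ContinuousOn G U)
    (hPD : ∀ z ∈ U, IsPD (G z)) {c : ℝ → E} {a b : ℝ} {K : NNReal} (hab : a ≤ b)
    (hL : LipschitzOnWith K c (Icc a b)) (hc : ∀ t ∈ Icc a b, c t ∈ U)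
    (hi : IntervalIntegrable (fun t => nm (G (c t)) (deriv c t)) volume a b) :
    IntervalIntegrable (fun t => G (c t) (deriv c t) (deriv c t)) volume a b := by
  have hcomp : IsCompact (Icc a b) := isCompact_Icc
  have hGc : ContinuousOn (fun t => G (c t)) (Icc a b) :=
    hG.comp hL.continuousOn hc
  obtain ⟨C, hC⟩ := IsCompact.exists_bound_of_continuousOn (E := Bil E) hcomp hGc
  rw [intervalIntegrable_iff_integrableOn_Ioc_of_le hab] at hi ⊢
  have hm : AEStronglyMeasurable (fun t => G (c t) (deriv c t) (deriv c t))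
      (volume.restrict (Ioc a b)) := by
    refine (hi.aestronglyMeasurable.pow 2).congr ?_
    filter_upwards [ae_restrict_mem measurableSet_Ioc] with t ht
    exact sq_nm (hPD _ (hc t ⟨ht.1.le, ht.2⟩)) _
  rw [IntegrableOn, ← Measure.restrict_congr_set (Ioo_ae_eq_Ioc (μ := volume))] at hi ⊢
  rw [← Measure.restrict_congr_set (Ioo_ae_eq_Ioc (μ := volume))] at hm
  refine Integrable.of_bound hm (C * K * K) ?_
  filter_upwards [ae_restrict_mem measurableSet_Ioo] with t ht
  have h1 : ‖deriv c t‖ ≤ K := norm_deriv_le_of_lipschitzOn (Icc_mem_nhds ht.1 ht.2) hL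
  have h2 : ‖G (c t)‖ ≤ C := hC t ⟨ht.1.le, ht.2.le⟩
  calc ‖G (c t) (deriv c t) (deriv c t)‖ ≤ ‖G (c t)‖ * ‖deriv c t‖ * ‖deriv c t‖ :=
        (G (c t)).le_opNorm₂ _ _
    _ ≤ C * K * K := by
        have h3 : 0 ≤ C := (norm_nonneg _).trans h2
        gcongr

/-- The core of the argument, in a chart. -/
theorem core (hDB2 : S_DB2 E) (hDBR : S_DBR E) {U : Set E} (hU : IsOpen U) {G : E → Bil E}
    (hG : ContDiffOn ℝ ∞ G U) (hPD : ∀ z ∈ U, IsPD (G z)) {β : ℝ → E} {a b : ℝ} (hab : a < b)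
    {K : NNReal} (hL : LipschitzOnWith K β (Icc a b)) (hβ : ∀ t ∈ Icc a b, β t ∈ U)
    (hsp : ∀ t ∈ Ioo a b, nm (G (β t)) (deriv β t) ≤ 1)
    (hmin : ∀ s t, a ≤ s → s ≤ t → t ≤ b → ∀ (c : ℝ → E) (K : NNReal),
      LipschitzOnWith K c (Icc s t) → (∀ r ∈ Icc s t, c r ∈ U) → c s = β s → c t = β t →
      IntervalIntegrable (fun r => nm (G (c r)) (deriv c r)) volume s t ∧
      t - s ≤ ∫ r in s..t, nm (G (c r)) (deriv c r)) :
    ∀ t ∈ Ioo a b, IsGeoC G β t := by
  have hDB : ∀ t ∈ Ioo a b, ContDiffAt ℝ 2 β t ∧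
      ∀ u, G (β t) (deriv (deriv β) t) u + fderiv ℝ G (β t) (deriv β t) (deriv β t) u =
        (1 / 2) * fderiv ℝ G (β t) u (deriv β t) (deriv β t) := by
    refine hDBR U G β a b K hU hG hPD hab hL hβ ?_
    intro V hV hVc hVs
    refine hDB2 U G β a b K hU hG hPD hab hL hβ V hV hVc hVs ?_
    -- the perturbed curves
    obtain ⟨KV, hKV⟩ : ∃ C, LipschitzWith C V :=
      hV.lipschitzWith_of_hasCompactSupport hVc (by simp)
    obtain ⟨B, hB⟩ : ∃ B, ∀ t, ‖V t‖ ≤ B := hVc.exists_bound_of_continuous hV.continuous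
    have hcomp : IsCompact (β '' Icc a b) := isCompact_Icc.image_of_continuousOn hL.continuousOn
    have hsub : β '' Icc a b ⊆ U := by
      rintro _ ⟨t, ht, rfl⟩
      exact hβ t ht
    obtain ⟨δ, hδ, hδU⟩ := hcomp.exists_thickening_subset_open hU hsub
    have hVa : V a = 0 := image_eq_zero_of_notMem_tsupport fun h => lt_irrefl _ (hVs h).1
    have hVb : V b = 0 := image_eq_zero_of_notMem_tsupport fun h => lt_irrefl _ (hVs h).2
    have hs : ∀ᶠ s : ℝ in 𝓝 0, |s| * B < δ := by
      have h1 : Tendsto (fun s : ℝ => |s| * B) (𝓝 0) (𝓝 (|(0 : ℝ)| * B)) :=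
        (continuous_abs.mul continuous_const).tendsto 0
      rw [abs_zero, zero_mul] at h1
      exact h1.eventually (gt_mem_nhds hδ)
    filter_upwards [hs] with s hs
    -- upper bound
    obtain ⟨hi0, -⟩ := hmin a b le_rfl hab.le le_rfl β K hL hβ rfl rfl
    have hq0 := intq hG.continuousOn hPD hab.le hL hβ hi0
    have hup : ∫ t in a..b, G (β t) (deriv β t) (deriv β t) ≤ b - a := by
      have h1 : ∫ t in a..b, G (β t) (deriv β t) (deriv β t) ≤ ∫ _ in a..b, (1 : ℝ) := by
        refine intervalIntegral.integral_mono_on_of_le_Ioo hab.le hq0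
          intervalIntegrable_const ?_
        intro t ht
        rw [← sq_nm (hPD _ (hβ t ⟨ht.1.le, ht.2.le⟩))]
        exact pow_le_one₀ (nm_nonneg _ _) (hsp t ht)
      simpa using h1
    refine hup.trans ?_
    -- lower bound
    have hcL : LipschitzOnWith (K + ‖s‖₊ * KV) (fun t => β t + s • V t) (Icc a b) := by
      refine hL.add ?_
      refine LipschitzOnWith.of_dist_le_mul ?_
      intro x _ y _
      rw [dist_eq_norm, ← smul_sub, norm_smul]
      have h1 := hKV.dist_le_mul x y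
      rw [dist_eq_norm] at h1
      push_cast
      rw [mul_assoc]
      gcongr
    have hcU : ∀ t ∈ Icc a b, β t + s • V t ∈ U := by
      intro t ht
      apply hδU
      rw [Metric.mem_thickening_iff]
      refine ⟨β t, mem_image_of_mem _ ht, ?_⟩
      rw [dist_eq_norm, add_sub_cancel_left, norm_smul, Real.norm_eq_abs]
      refine lt_of_le_of_lt ?_ hs
      gcongr
      exact hB t
    obtain ⟨hi1, hm1⟩ := hmin a b le_rfl hab.le le_rfl (fun t => β t + s • V t) _ hcL hcU
      (by simp [hVa]) (by simp [hVb])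
    have hq1 := intq hG.continuousOn hPD hab.le hcL hcU hi1
    have hlow : b - a ≤ ∫ t in a..b, G (β t + s • V t) (deriv (fun t => β t + s • V t) t)
        (deriv (fun t => β t + s • V t) t) := by
      have h1 : ∫ r in a..b, nm (G (β r + s • V r)) (deriv (fun t => β t + s • V t) r) ≤
          ∫ r in a..b, ((1 / 2 : ℝ) + (1 / 2) * G (β r + s • V r)
            (deriv (fun t => β t + s • V t) r) (deriv (fun t => β t + s • V t) r)) := by
        refine intervalIntegral.integral_mono_on hab.le hi1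
          (intervalIntegrable_const.add (hq1.const_mul _)) ?_
        intro t ht
        rw [← sq_nm (hPD _ (hcU t ht))]
        nlinarith [sq_nonneg (nm (G (β t + s • V t)) (deriv (fun t => β t + s • V t) t) - 1)]
      rw [intervalIntegral.integral_add intervalIntegrable_const (hq1.const_mul _),
        intervalIntegral.integral_const_mul, intervalIntegral.integral_const] at h1
      have h2 := hm1.trans h1
      rw [smul_eq_mul] at h2
      linarith
    refine hlow.trans (le_of_eq ?_)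
    refine intervalIntegral.integral_congr_ae ?_
    rw [uIoc_of_le hab.le]
    have hae : ∀ᵐ t ∂(volume.restrict (Ioo a b)), DifferentiableAt ℝ β t := by
      have h1 : ∀ᵐ t ∂(volume.restrict (Ioo a b)), DifferentiableWithinAt ℝ β (Ioo a b) t :=
        (hL.mono Ioo_subset_Icc_self).ae_differentiableWithinAt_real measurableSet_Ioo
      filter_upwards [h1, ae_restrict_mem measurableSet_Ioo] with t h2 h3
      exact h2.differentiableAt (Ioo_mem_nhds h3.1 h3.2)
    rw [Measure.restrict_congr_set (Ioo_ae_eq_Ioc (μ := volume)),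
      ae_restrict_iff' measurableSet_Ioc] at hae
    filter_upwards [hae] with t h1 h2
    have h3 : deriv (fun t => β t + s • V t) t = deriv β t + s • deriv V t := by
      have h4 : DifferentiableAt ℝ V t := (hV.differentiable (by simp)) t
      exact ((h1 h2).hasDerivAt.add (h4.hasDerivAt.const_smul s)).deriv
    rw [h3]
  intro t ht
  obtain ⟨h1, h2⟩ := hDB t ht
  refine ⟨h1, ?_, h2⟩
  -- unit speed
  have hd : ContinuousAt (deriv β) t := by
    have h3 : ContinuousAt (fderiv ℝ β) t :=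
      (h1.fderiv_right (m := 0) (by norm_num)).continuousAt
    exact h3.clm_apply continuousAt_const
  have hGt : ContinuousAt (fun r => G (β r)) t :=
    ContinuousAt.comp (hG.continuousOn.continuousAt (hU.mem_nhds (hβ t ⟨ht.1.le, ht.2.le⟩)))
      h1.continuousAt
  have hgc : ContinuousAt (fun r => G (β r) (deriv β r) (deriv β r)) t :=
    (hGt.clm_apply hd).clm_apply hd
  have hnc : ContinuousAt (fun r => nm (G (β r)) (deriv β r)) t :=
    Real.continuous_sqrt.continuousAt.comp hgc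
  have hone : nm (G (β t)) (deriv β t) = 1 := by
    refine le_antisymm (hsp t ht) ?_
    by_contra hlt
    push Not at hlt
    obtain ⟨q, hq1, hq2⟩ := exists_between hlt
    have h3 : ∀ᶠ r in 𝓝 t, nm (G (β r)) (deriv β r) < q := hnc.eventually (gt_mem_nhds hq1)
    have h4 : ∀ᶠ r in 𝓝 t, r ∈ Ioo a b := Ioo_mem_nhds ht.1 ht.2
    obtain ⟨ε, hε, hball⟩ := Metric.eventually_nhds_iff.1 (h3.and h4)
    have h5 : ∀ r ∈ Icc t (t + ε / 2), nm (G (β r)) (deriv β r) < q ∧ r ∈ Ioo a b := by
      intro r hr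
      apply hball
      rw [Real.dist_eq, abs_lt]
      constructor <;> linarith [hr.1, hr.2]
    have h6 : t + ε / 2 ≤ b := (h5 (t + ε / 2) ⟨by linarith, le_rfl⟩).2.2.le
    obtain ⟨hi, hm⟩ := hmin t (t + ε / 2) ht.1.le (by linarith) h6 β K
      (hL.mono (Icc_subset_Icc ht.1.le h6)) (fun r hr => hβ r ⟨ht.1.le.trans hr.1, hr.2.trans h6⟩)
      rfl rfl
    have h7 : ∫ r in t..(t + ε / 2), nm (G (β r)) (deriv β r) ≤ ∫ _ in t..(t + ε / 2), q :=
      intervalIntegral.integral_mono_on (by linarith) hi intervalIntegrable_const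
        fun r hr => (h5 r hr).1.le
    rw [intervalIntegral.integral_const, smul_eq_mul] at h7
    nlinarith
  rw [← sq_nm (hPD _ (hβ t ⟨ht.1.le, ht.2.le⟩)), hone, one_pow]

end Vec

/-- GEO. -/
theorem geo (E : Type*) [NormedAddCommGroup E] [NormedSpace ℝ E] [FiniteDimensional ℝ E]
    (M : Type*) [TopologicalSpace M] [ChartedSpace E M] [IsManifold 𝓘(ℝ, E) ∞ M]
    (hDER : S_DER E M) (hPTW : S_PTW E M) (hDB2 : S_DB2 E) (hDBR : S_DBR E) : S_GEO E M := by
  intro hM1 hM2 hM3 G γ a b hab hsp hmin t ht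
  refine ⟨(hsp t).1, ?_⟩
  intro x hx
  have hev : ∀ᶠ r in 𝓝 t, γ r ∈ src E x ∧ r ∈ Ioo a b :=
    ((hsp t).1.eventually ((isOpen_src x).mem_nhds hx)).and (Ioo_mem_nhds ht.1 ht.2)
  obtain ⟨ε, hε, hball⟩ := Metric.eventually_nhds_iff.1 hev
  have hin : ∀ r ∈ Icc (t - ε / 2) (t + ε / 2), γ r ∈ src E x ∧ r ∈ Ioo a b := by
    intro r hr
    apply hball
    rw [Real.dist_eq, abs_lt]
    constructor <;> linarith [hr.1, hr.2]
  have hlt : t - ε / 2 < t + ε / 2 := by linarith
  have ha : a ≤ t - ε / 2 := (hin (t - ε / 2) ⟨le_rfl, hlt.le⟩).2.1.le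
  have hb : t + ε / 2 ≤ b := (hin (t + ε / 2) ⟨hlt.le, le_rfl⟩).2.2.le
  obtain ⟨⟨K, hK⟩, hder⟩ := hDER G 1 γ (t - ε / 2) (t + ε / 2) x zero_le_one hlt.le
    fun r hr => ⟨hsp r, (hin r hr).1⟩
  refine core hDB2 hDBR (isOpen_tgt x) (G.smooth x) (fun z hz => ⟨G.symm x z hz, G.pos x z hz⟩)
    hlt hK (fun r hr => ch_mem (hin r hr).1) hder ?_ t ⟨by linarith, by linarith⟩
  intro s r hs hsr hr c K' hc hcU hcs hcr
  obtain ⟨h1, h2⟩ := hPTW hM1 hM2 hM3 G x c s r K' hsr hc hcU
  refine ⟨h1, ?_⟩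
  have h3 : tau G (γ s) (γ r) = r - s := hmin s r (ha.trans hs) hsr (hr.trans hb)
  rw [hcs, hcr, chi_ch (hin s ⟨hs, hsr.trans hr⟩).1, chi_ch (hin r ⟨hs.trans hsr, hr⟩).1, h3]
    at h2
  exact h2

end Pool.Agent.Helper10.SRD
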